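import Mathlib

/-!
# MP_cf426b_al, Q1: commuting graphs of semigroups of bounded rank have unbounded diameter

We construct one semigroup `S`, generated by six elements, whose commuting graph is connected and
has infinite diameter.
-/

namespace Pool.Agent.Results.MP_cf426b_al.InfiniteDiameter

/-- The non-central elements of a semigroup: those which do not commute with some element. -/
abbrev NonCentral (S : Type*) [Semigroup S] : Type _ := {x : S // ∃ s : S, x * s ≠ s * x}

/-- The commuting graph of a semigroup: the vertices are the non-central elements, two distinct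
vertices are adjacent if they commute. -/
def commGraph (S : Type*) [Semigroup S] : SimpleGraph (NonCentral S) where
  Adj x y := x ≠ y ∧ x.1 * y.1 = y.1 * x.1
  symm := ⟨fun _ _ h => ⟨h.1.symm, h.2.symm⟩⟩
  loopless := ⟨fun _ h => h.1 rfl⟩

/-- The points on which our semigroup acts. -/
inductive P : Type
  | x (i : ℕ) : P
  | y (j r : ℕ) : P
  deriving DecidableEq

open P

/-- generator `α` -/
def al : P → P
  | x _ => x 0
  | y j r => y (j + 1) (r - 1)

/-- generator `β` -/
def be : P → P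
  | x _ => x 0
  | y j r => if r = 1 then x (j + 1) else x j

/-- generator `γ` -/
def ga : P → P
  | x i => y 0 i
  | y _ _ => y 0 0

/-- generator `δ` -/
def de : P → P
  | x _ => x 0
  | y j _ => y j 0

/-- The maps generated by `id, α, β, γ, δ` and the constant map with value `x 0`. -/
inductive G : (P → P) → Prop
  | one : G id
  | al {f : P → P} : G f → G (al ∘ f)
  | be {f : P → P} : G f → G (be ∘ f)
  | ga {f : P → P} : G f → G (ga ∘ f)
  | de {f : P → P} : G f → G (de ∘ f)
  | c {f : P → P} : G f → G ((fun _ => x 0) ∘ f)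

lemma G.comp {f g : P → P} (hf : G f) (hg : G g) : G (f ∘ g) := by
  induction hf with
  | one => exact hg
  | al _ ih => exact G.al ih
  | be _ ih => exact G.be ih
  | ga _ ih => exact G.ga ih
  | de _ ih => exact G.de ih
  | @c f _ _ => exact G.c (f := f ∘ g) (by assumption)

/-- The semigroup. -/
def S : Type := {f : P → P // G f}

instance : Semigroup S where
  mul f g := ⟨f.1 ∘ g.1, f.2.comp g.2⟩
  mul_assoc _ _ _ := rfl

lemma mul_val (f g : S) : (f * g).1 = f.1 ∘ g.1 := rfl

lemma ext' {f g : S} (h : ∀ z, f.1 z = g.1 z) : f = g := Subtype.ext (funext h)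

/-! ### Explicit maps -/

/-- the maps `α^k δ^e` -/
def E (k : ℕ) (e : Bool) : P → P
  | x _ => x 0
  | y j r => y (j + k) (if e then 0 else r - k)

/-- the maps `α^j γ` -/
def Gj (j : ℕ) : P → P
  | x i => y j (i - j)
  | y _ _ => y j 0

/-- The classification of the elements. -/
def Cl (f : P → P) : Prop :=
  (∃ a, ∀ z, f z = x a ∨ f z = x (a + 1)) ∨
  (∃ j r, ∀ z, f z = y j r ∨ f z = y j (r + 1)) ∨
  f = id ∨ (∃ k e, f = E k e) ∨ (∃ k e, f = be ∘ E k e) ∨ (∃ j, f = Gj j) ∨
  (∃ j k e, f = Gj j ∘ be ∘ E k e)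

lemma al_E (k : ℕ) (e : Bool) : al ∘ E k e = E (k + 1) e := by
  funext z
  cases z with
  | x i => rfl
  | y j r =>
    show y (j + k + 1) ((if e then 0 else r - k) - 1) = y (j + (k + 1)) (if e then 0 else r - (k + 1))
    cases e <;> simp <;> omega

lemma de_E (k : ℕ) (e : Bool) : de ∘ E k e = E k true := by
  funext z
  cases z <;> simp [de, E]

lemma al_Gj (j : ℕ) : al ∘ Gj j = Gj (j + 1) := by
  funext z
  cases z with
  | x i =>
    show y (j + 1) (i - j - 1) = y (j + 1) (i - (j + 1))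
    congr 1
  | y a b => rfl

lemma al_one : al = E 1 false := by
  funext z
  cases z <;> simp [al, E]

lemma de_one : de = E 0 true := by
  funext z
  cases z <;> simp [de, E]

lemma be_one : be = be ∘ E 0 false := by
  funext z
  cases z <;> simp [be, E]

lemma ga_one : ga = Gj 0 := by
  funext z
  cases z <;> simp [ga, Gj]

lemma be_cases (z : P) : ∃ i, be z = x i := by
  cases z with
  | x i => exact ⟨0, rfl⟩
  | y j r =>
    by_cases h : r = 1
    · exact ⟨j + 1, by simp [be, h]⟩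
    · exact ⟨j, by simp [be, h]⟩

lemma Gj_cases (j : ℕ) (z : P) : ∃ r, Gj j z = y j r := by
  cases z with
  | x i => exact ⟨i - j, rfl⟩
  | y a b => exact ⟨0, rfl⟩

lemma E_cases (k : ℕ) (e : Bool) (z : P) : E k e z = x 0 ∨ ∃ j r, E k e z = y j r := by
  cases z with
  | x i => exact Or.inl rfl
  | y j r => exact Or.inr ⟨_, _, rfl⟩

lemma be_Gj (j : ℕ) (z : P) : be (Gj j z) = x j ∨ be (Gj j z) = x (j + 1) := by
  obtain ⟨r, hr⟩ := Gj_cases j z
  rw [hr]
  by_cases h : r = 1
  · right; simp [be, h]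
  · left; simp [be, h]

lemma cl_const_x (f : P → P) (a : ℕ) (h : ∀ z, f z = x a) : Cl f :=
  Or.inl ⟨a, fun z => Or.inl (h z)⟩

lemma cl_const_y (f : P → P) (j r : ℕ) (h : ∀ z, f z = y j r) : Cl f :=
  Or.inr (Or.inl ⟨j, r, fun z => Or.inl (h z)⟩)

lemma cl_al {f : P → P} (h : Cl f) : Cl (al ∘ f) := by
  rcases h with ⟨a, h⟩ | ⟨j, r, h⟩ | rfl | ⟨k, e, rfl⟩ | ⟨k, e, rfl⟩ | ⟨j, rfl⟩ | ⟨j, k, e, rfl⟩
  · refine cl_const_x _ 0 fun z => ?_
    rcases h z with h | h <;> simp [h, al]
  · refine Or.inr (Or.inl ⟨j + 1, r - 1, fun z => ?_⟩)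
    rcases h z with h | h
    · left; simp [h, al]
    · rcases Nat.eq_zero_or_pos r with rfl | hr
      · left; simp [h, al]
      · right
        simp only [Function.comp_apply, h, al]
        congr 1
        omega
  · exact Or.inr (Or.inr (Or.inr (Or.inl ⟨1, false, al_one⟩)))
  · exact Or.inr (Or.inr (Or.inr (Or.inl ⟨k + 1, e, al_E k e⟩)))
  · refine cl_const_x _ 0 fun z => ?_
    obtain ⟨i, hi⟩ := be_cases (E k e z)
    simp [hi, al]
  · exact Or.inr (Or.inr (Or.inr (Or.inr (Or.inr (Or.inl ⟨j + 1, al_Gj j⟩)))))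
  · refine Or.inr (Or.inr (Or.inr (Or.inr (Or.inr (Or.inr ⟨j + 1, k, e, ?_⟩)))))
    rw [← al_Gj]
    rfl

lemma cl_be {f : P → P} (h : Cl f) : Cl (be ∘ f) := by
  rcases h with ⟨a, h⟩ | ⟨j, r, h⟩ | rfl | ⟨k, e, rfl⟩ | ⟨k, e, rfl⟩ | ⟨j, rfl⟩ | ⟨j, k, e, rfl⟩
  · refine cl_const_x _ 0 fun z => ?_
    rcases h z with h | h <;> simp [h, be]
  · refine Or.inl ⟨j, fun z => ?_⟩
    rcases h z with h | h
    · by_cases hr : r = 1
      · right; simp [h, be, hr]
      · left; simp [h, be, hr]
    · by_cases hr : r = 0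
      · right; simp [h, be, hr]
      · left; simp [h, be, hr]
  · exact Or.inr (Or.inr (Or.inr (Or.inr (Or.inl ⟨0, false, be_one⟩))))
  · exact Or.inr (Or.inr (Or.inr (Or.inr (Or.inl ⟨k, e, rfl⟩))))
  · refine cl_const_x _ 0 fun z => ?_
    obtain ⟨i, hi⟩ := be_cases (E k e z)
    show be (be (E k e z)) = x 0
    rw [hi]
    rfl
  · exact Or.inl ⟨j, fun z => be_Gj j z⟩
  · exact Or.inl ⟨j, fun z => be_Gj j _⟩

lemma cl_ga {f : P → P} (h : Cl f) : Cl (ga ∘ f) := by
  rcases h with ⟨a, h⟩ | ⟨j, r, h⟩ | rfl | ⟨k, e, rfl⟩ | ⟨k, e, rfl⟩ | ⟨j, rfl⟩ | ⟨j, k, e, rfl⟩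
  · refine Or.inr (Or.inl ⟨0, a, fun z => ?_⟩)
    rcases h z with h | h
    · left; simp [h, ga]
    · right; simp [h, ga]
  · refine cl_const_y _ 0 0 fun z => ?_
    rcases h z with h | h <;> simp [h, ga]
  · exact Or.inr (Or.inr (Or.inr (Or.inr (Or.inr (Or.inl ⟨0, ga_one⟩)))))
  · refine cl_const_y _ 0 0 fun z => ?_
    rcases E_cases k e z with h | ⟨j, r, h⟩ <;> simp [h, ga]
  · refine Or.inr (Or.inr (Or.inr (Or.inr (Or.inr (Or.inr ⟨0, k, e, ?_⟩)))))
    rw [← ga_one]
  · refine cl_const_y _ 0 0 fun z => ?_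
    obtain ⟨r, hr⟩ := Gj_cases j z
    simp [hr, ga]
  · refine cl_const_y _ 0 0 fun z => ?_
    obtain ⟨r, hr⟩ := Gj_cases j (be (E k e z))
    simp [hr, ga]

lemma cl_de {f : P → P} (h : Cl f) : Cl (de ∘ f) := by
  rcases h with ⟨a, h⟩ | ⟨j, r, h⟩ | rfl | ⟨k, e, rfl⟩ | ⟨k, e, rfl⟩ | ⟨j, rfl⟩ | ⟨j, k, e, rfl⟩
  · refine cl_const_x _ 0 fun z => ?_
    rcases h z with h | h <;> simp [h, de]
  · refine cl_const_y _ j 0 fun z => ?_
    rcases h z with h | h <;> simp [h, de]
  · exact Or.inr (Or.inr (Or.inr (Or.inl ⟨0, true, de_one⟩)))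
  · exact Or.inr (Or.inr (Or.inr (Or.inl ⟨k, true, de_E k e⟩)))
  · refine cl_const_x _ 0 fun z => ?_
    obtain ⟨i, hi⟩ := be_cases (E k e z)
    simp [hi, de]
  · refine cl_const_y _ j 0 fun z => ?_
    obtain ⟨r, hr⟩ := Gj_cases j z
    simp [hr, de]
  · refine cl_const_y _ j 0 fun z => ?_
    obtain ⟨r, hr⟩ := Gj_cases j (be (E k e z))
    simp [hr, de]

lemma G.cl {f : P → P} (hf : G f) : Cl f := by
  induction hf with
  | one => exact Or.inr (Or.inr (Or.inl rfl))
  | al _ ih => exact cl_al ih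
  | be _ ih => exact cl_be ih
  | ga _ ih => exact cl_ga ih
  | de _ ih => exact cl_de ih
  | c _ _ => exact cl_const_x _ 0 fun _ => rfl

/-- The key lemma: an element other than the identity which maps some `x m` to some `x l` with
`l ≠ 0` has its image in `{x a, x (a+1)}`. -/
lemma key {f : P → P} (hf : G f) (hid : f ≠ id) {m l : ℕ} (hl : l ≠ 0) (h : f (x m) = x l) :
    ∃ a, ∀ z, f z = x a ∨ f z = x (a + 1) := by
  rcases hf.cl with h1 | ⟨j, r, h1⟩ | rfl | ⟨k, e, rfl⟩ | ⟨k, e, rfl⟩ | ⟨j, rfl⟩ | ⟨j, k, e, rfl⟩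
  · exact h1
  · rcases h1 (x m) with h2 | h2 <;> rw [h] at h2 <;> cases h2
  · exact absurd rfl hid
  · exfalso
    have : E k e (x m) = x 0 := rfl
    rw [this] at h
    cases h
    exact hl rfl
  · exfalso
    have : (be ∘ E k e) (x m) = x 0 := rfl
    rw [this] at h
    cases h
    exact hl rfl
  · exfalso
    obtain ⟨r, hr⟩ := Gj_cases j (x m)
    rw [hr] at h
    cases h
  · exfalso
    obtain ⟨r, hr⟩ := Gj_cases j (be (E k e (x m)))
    have : (Gj j ∘ be ∘ E k e) (x m) = Gj j (be (E k e (x m))) := rfl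
    rw [this, hr] at h
    cases h

/-! ### Elements of `S` -/

lemma G_al : G al := G.al G.one
lemma G_be : G be := G.be G.one
lemma G_ga : G ga := G.ga G.one
lemma G_de : G de := G.de G.one

lemma G_Gj (j : ℕ) : G (Gj j) := by
  induction j with
  | zero => rw [← ga_one]; exact G_ga
  | succ j ih => rw [← al_Gj]; exact G.al ih

lemma G_const (z : P) : G (fun _ => z) := by
  have h0 : G (fun _ : P => x 0) := G.c G.one
  have h1 : ∀ n, G (fun _ : P => x n) := by
    intro n
    have h2 : (fun _ : P => x n) = be ∘ (Gj n ∘ fun _ => x 0) := by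
      funext z
      simp [be, Gj]
    rw [h2]
    exact G.be ((G_Gj n).comp h0)
  cases z with
  | x n => exact h1 n
  | y j r =>
    have h2 : (fun _ : P => y j r) = Gj j ∘ (fun _ => x (j + r)) := by
      funext z
      simp [Gj]
    rw [h2]
    exact (G_Gj j).comp (h1 _)

/-- The map `be ∘ α^k`. -/
lemma G_beE (k : ℕ) : G (be ∘ E k false) := by
  have h : ∀ k, be ∘ E k false = be ∘ E k false ∧ G (E (k + 1) false) := by
    intro k
    refine ⟨rfl, ?_⟩
    induction k with
    | zero => rw [← al_one]; exact G_al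
    | succ k ih => rw [← al_E]; exact G.al ih
  cases k with
  | zero => rw [← be_one]; exact G_be
  | succ k => exact G.be (h k).2

/-- The constant element. -/
def cst (z : P) : S := ⟨fun _ => z, G_const z⟩

/-- If `s` is not the identity it is not central. -/
lemma noncentral {s : S} (h : s.1 ≠ id) : ∃ t : S, s * t ≠ t * s := by
  by_contra hcon
  push Not at hcon
  apply h
  funext z
  have := hcon (cst z)
  exact congrFun (congrArg Subtype.val this) z

lemma cst_ne_id (z : P) : (cst z).1 ≠ id := by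
  intro h
  have h1 : z = x 0 := congrFun h (x 0)
  have h2 : z = x 1 := congrFun h (x 1)
  rw [h1] at h2
  cases h2

/-- vertices -/
def V (s : S) (h : s.1 ≠ id) : NonCentral S := ⟨s, noncentral h⟩

/-- the constant vertex -/
def C (z : P) : NonCentral S := V (cst z) (cst_ne_id z)

lemma reach_of_comm (s t : NonCentral S) (h : s.1 * t.1 = t.1 * s.1) :
    (commGraph S).Reachable s t := by
  by_cases hst : s = t
  · rw [hst]
  · exact SimpleGraph.Adj.reachable (show (commGraph S).Adj s t from ⟨hst, h⟩)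

lemma reach_fix (s : S) (h : s.1 ≠ id) (z : P) (hz : s.1 z = z) :
    (commGraph S).Reachable (V s h) (C z) := by
  apply reach_of_comm
  apply ext'
  intro w
  exact hz

lemma reach_two (s : S) (h : s.1 ≠ id) (z w : P) (hz : s.1 z = z) (hw : s.1 w = w) :
    (commGraph S).Reachable (C z) (C w) :=
  (reach_fix s h z hz).symm.trans (reach_fix s h w hw)

lemma chainX (n : ℕ) : (commGraph S).Reachable (C (x n)) (C (x (n + 1))) := by
  refine reach_two ⟨be ∘ Gj n, G.be (G_Gj n)⟩ ?_ _ _ ?_ ?_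
  · intro h
    have h1 : (be ∘ Gj n) (y 0 0) = y 0 0 := congrFun h (y 0 0)
    obtain ⟨i, hi⟩ := be_cases (Gj n (y 0 0))
    rw [Function.comp_apply, hi] at h1
    cases h1
  · show be (Gj n (x n)) = x n
    simp [be, Gj]
  · show be (Gj n (x (n + 1))) = x (n + 1)
    simp [be, Gj]

lemma chainY (j r : ℕ) : (commGraph S).Reachable (C (y j r)) (C (y j (r + 1))) := by
  refine reach_two ⟨Gj j ∘ (be ∘ E r false), (G_Gj j).comp (G_beE r)⟩ ?_ _ _ ?_ ?_
  · intro h
    have h1 : (Gj j ∘ (be ∘ E r false)) (x 0) = x 0 := congrFun h (x 0)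
    obtain ⟨i, hi⟩ := Gj_cases j ((be ∘ E r false) (x 0))
    rw [Function.comp_apply, hi] at h1
    cases h1
  · show Gj j (be (E r false (y j r))) = y j r
    simp [be, Gj, E]
  · show Gj j (be (E r false (y j (r + 1)))) = y j (r + 1)
    have e1 : E r false (y j (r + 1)) = y (j + r) 1 := by simp [E]
    have e2 : be (y (j + r) 1) = x (j + r + 1) := rfl
    rw [e1, e2]
    show y j (j + r + 1 - j) = y j (r + 1)
    congr 1
    omega

lemma link (j : ℕ) : (commGraph S).Reachable (C (y j 0)) (C (x 0)) := by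
  refine reach_two ⟨de, G_de⟩ ?_ _ _ ?_ ?_
  · intro h
    have h1 : de (x 1) = x 1 := congrFun h (x 1)
    cases h1
  · rfl
  · rfl

lemma reach_C (z : P) : (commGraph S).Reachable (C z) (C (x 0)) := by
  cases z with
  | x n =>
    induction n with
    | zero => exact SimpleGraph.Reachable.refl _
    | succ n ih => exact (chainX n).symm.trans ih
  | y j r =>
    induction r with
    | zero => exact link j
    | succ r ih => exact (chainY j r).symm.trans ih

/-- If `s²` fixes a point then `s` is connected to the base vertex. -/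
lemma reach_sq (s : S) (h : s.1 ≠ id) (z w : P) (hz : s.1 z = w) (hw : s.1 w = z) :
    (commGraph S).Reachable (V s h) (C (x 0)) := by
  by_cases h2 : (s * s).1 = id
  · exfalso
    -- `s` would be a bijection, but then it is the identity or has small image
    have hsq : ∀ u, s.1 (s.1 u) = u := fun u => congrFun h2 u
    have hinj : Function.Injective s.1 := fun u v huv => by rw [← hsq u, ← hsq v, huv]
    have hsurj : Function.Surjective s.1 := fun u => ⟨s.1 u, hsq u⟩
    rcases s.2.cl with ⟨a, h1⟩ | ⟨j, r, h1⟩ | h1 | ⟨k, e, h1⟩ | ⟨k, e, h1⟩ | ⟨j, h1⟩ | ⟨j, k, e, h1⟩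
    · obtain ⟨u, hu⟩ := hsurj (y 0 0)
      rcases h1 u with h3 | h3 <;> rw [hu] at h3 <;> cases h3
    · obtain ⟨u, hu⟩ := hsurj (x 0)
      rcases h1 u with h3 | h3 <;> rw [hu] at h3 <;> cases h3
    · exact h h1
    · have : s.1 (x 0) = s.1 (x 1) := by rw [h1]; rfl
      cases hinj this
    · have : s.1 (x 0) = s.1 (x 1) := by rw [h1]; rfl
      cases hinj this
    · obtain ⟨u, hu⟩ := hsurj (x 0)
      obtain ⟨r, hr⟩ := Gj_cases j u
      rw [h1, hr] at hu
      cases hu
    · obtain ⟨u, hu⟩ := hsurj (x 0)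
      obtain ⟨r, hr⟩ := Gj_cases j (be (E k e u))
      rw [h1, Function.comp_apply, Function.comp_apply, hr] at hu
      cases hu
  · have h3 : (commGraph S).Reachable (V s h) (V (s * s) h2) :=
      reach_of_comm _ _ (mul_assoc s s s).symm
    refine h3.trans ((reach_fix (s * s) h2 z ?_).trans (reach_C z))
    show s.1 (s.1 z) = z
    rw [hz, hw]

/-- A map with image in two points `z, w` is connected to the base vertex. -/
lemma reach_small (s : S) (h : s.1 ≠ id) (z w : P) (hs : ∀ u, s.1 u = z ∨ s.1 u = w) :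
    (commGraph S).Reachable (V s h) (C (x 0)) := by
  rcases hs z with h1 | h1
  · exact (reach_fix s h z h1).trans (reach_C z)
  · rcases hs w with h2 | h2
    · by_cases hzw : z = w
      · rw [← hzw] at h1
        exact (reach_fix s h z h1).trans (reach_C z)
      · exact reach_sq s h z w h1 h2
    · exact (reach_fix s h w h2).trans (reach_C w)

lemma reach_all (s : S) (h : s.1 ≠ id) : (commGraph S).Reachable (V s h) (C (x 0)) := by
  rcases s.2.cl with ⟨a, h1⟩ | ⟨j, r, h1⟩ | h1 | ⟨k, e, h1⟩ | ⟨k, e, h1⟩ | ⟨j, h1⟩ | ⟨j, k, e, h1⟩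
  · exact reach_small s h _ _ h1
  · exact reach_small s h _ _ h1
  · exact absurd h1 h
  · exact reach_fix s h (x 0) (by rw [h1]; rfl)
  · exact reach_fix s h (x 0) (by rw [h1]; rfl)
  · exact (reach_fix s h (y j 0) (by rw [h1]; rfl)).trans (reach_C _)
  · refine (reach_fix s h (y j k) ?_).trans (reach_C _)
    rw [h1]
    simp [be, Gj, E]

lemma vertex_eq (s : NonCentral S) : ∃ h : s.1.1 ≠ id, s = V s.1 h := by
  have h : s.1.1 ≠ id := by
    intro h
    obtain ⟨t, ht⟩ := s.2
    apply ht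
    apply ext'
    intro z
    show s.1.1 (t.1 z) = t.1 (s.1.1 z)
    rw [h]
    rfl
  exact ⟨h, rfl⟩

lemma connected : (commGraph S).Connected := by
  have : Nonempty (NonCentral S) := ⟨C (x 0)⟩
  refine ⟨fun s t => ?_⟩
  obtain ⟨hs, hs'⟩ := vertex_eq s
  obtain ⟨ht, ht'⟩ := vertex_eq t
  rw [hs', ht']
  exact (reach_all _ hs).trans (reach_all _ ht).symm

/-! ### The distance -/

/-- The elements with image in `{x l : l > n}`. -/
def Far (n : ℕ) (s : S) : Prop := ∀ z, ∃ l, n < l ∧ s.1 z = x l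

lemma far_step {n : ℕ} {s t : NonCentral S} (hs : Far (n + 1) s.1)
    (hst : (commGraph S).Adj s t) : Far n t.1 := by
  obtain ⟨ht, -⟩ := vertex_eq t
  have hcomm : ∀ z, s.1.1 (t.1.1 z) = t.1.1 (s.1.1 z) := fun z =>
    congrFun (congrArg Subtype.val hst.2) z
  obtain ⟨m, hm, hm'⟩ := hs (x 0)
  obtain ⟨l, hl, hl'⟩ := hs (t.1.1 (x 0))
  have h1 : t.1.1 (x m) = x l := by
    rw [← hm', ← hcomm, hl']
  obtain ⟨a, ha⟩ := key t.1.2 ht (by omega : l ≠ 0) h1
  have hal : n + 1 ≤ a := by
    rcases ha (x m) with h2 | h2 <;> rw [h1] at h2 <;> cases h2 <;> omega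
  intro z
  rcases ha z with h2 | h2
  · exact ⟨a, by omega, h2⟩
  · exact ⟨a + 1, by omega, h2⟩

lemma far_walk {s t : NonCentral S} (p : (commGraph S).Walk s t) :
    ∀ n, Far (n + p.length) s.1 → Far n t.1 := by
  induction p with
  | nil => intro n h; exact h
  | cons hadj p ih =>
    intro n h
    rw [SimpleGraph.Walk.length_cons, ← add_assoc] at h
    exact ih n (far_step h hadj)

lemma dist_ge (D : ℕ) : D ≤ (commGraph S).dist (C (x (D + 1))) (C (x 0)) := by
  obtain ⟨p, hp⟩ := connected.exists_walk_length_eq_dist (C (x (D + 1))) (C (x 0))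
  by_contra hcon
  push Not at hcon
  rw [← hp] at hcon
  have h1 : Far (0 + p.length) (C (x (D + 1))).1 := by
    intro z
    exact ⟨D + 1, by omega, rfl⟩
  obtain ⟨l, hl, hl'⟩ := far_walk p 0 h1 (x 0)
  have h2 : (C (x 0)).1.1 (x 0) = x 0 := rfl
  rw [h2] at hl'
  cases hl'
  omega

/-! ### Generators -/

/-- The generators, as elements of `S`. -/
noncomputable def gens : Finset S := by
  classical
  exact {⟨id, G.one⟩, ⟨al, G_al⟩, ⟨be, G_be⟩, ⟨ga, G_ga⟩, ⟨de, G_de⟩, cst (x 0)}

lemma gens_card : gens.card ≤ 6 := by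
  classical
  unfold gens
  exact Finset.card_le_six

lemma gens_closure : Subsemigroup.closure (gens : Set S) = ⊤ := by
  classical
  rw [eq_top_iff]
  rintro ⟨f, hf⟩ -
  have hmem : ∀ s : S, s ∈ gens → s ∈ Subsemigroup.closure (gens : Set S) := fun s hs =>
    Subsemigroup.subset_closure hs
  induction hf with
  | one => exact hmem _ (by simp [gens])
  | @al f hf ih =>
    exact Subsemigroup.mul_mem _ (hmem ⟨al, G_al⟩ (by simp [gens])) ih
  | @be f hf ih =>
    exact Subsemigroup.mul_mem _ (hmem ⟨be, G_be⟩ (by simp [gens])) ih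
  | @ga f hf ih =>
    exact Subsemigroup.mul_mem _ (hmem ⟨ga, G_ga⟩ (by simp [gens])) ih
  | @de f hf ih =>
    exact Subsemigroup.mul_mem _ (hmem ⟨de, G_de⟩ (by simp [gens])) ih
  | @c f hf ih =>
    exact Subsemigroup.mul_mem _ (hmem (cst (x 0)) (by simp [gens])) ih

/-- **MP_cf426b_al, Q1: yes, with `d = 6`.**  There is a semigroup generated by at most six elements
whose commuting graph is connected and contains vertices at arbitrarily large distance. -/
theorem result : ∃ (S : Type) (_ : Semigroup S),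
    (∃ F : Finset S, F.card ≤ 6 ∧ Subsemigroup.closure (F : Set S) = ⊤) ∧
    (commGraph S).Connected ∧
    ∀ D : ℕ, ∃ a b : NonCentral S, D ≤ (commGraph S).dist a b :=
  ⟨S, inferInstance, ⟨gens, gens_card, gens_closure⟩, connected, fun D => ⟨_, _, dist_ge D⟩⟩

end Pool.Agent.Results.MP_cf426b_al.InfiniteDiameter
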